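import Mathlib

/-!
# An explicit plane drawing: the combinatorial data and its finite checks

48 points with integer coordinates, 15 components: six components with two points (points
`2c, 2c+1` for `c < 6`) and nine components with four points (points `12+4r, …, 15+4r` for
`r < 9`).  Consecutive points of a component are joined by a segment.
-/

namespace Pool.Agent.V8H12.Conf

def xs : List ℤ :=
  [595, 596, 101, 106, 1605, 1596, 1604, 1594, 1105, 1100, 606, 606, 666, 654, 1540, 1548, 667,
   663, 1042, 1038, 609, 595, 604, 589, 158, 161, 1597, 1599, 169, 165, 1103, 1097, 105, 104,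
   538, 546, 1588, 1601, 1594, 1587, 1534, 1537, 1153, 1166, 1551, 1541, 660, 663]

def ys : List ℤ :=
  [679, 579, 848, 946, 201, 102, 677, 579, 669, 567, 202, 100, 703, 694, 705, 715, 654, 646,
   640, 651, 517, 518, 260, 262, 956, 968, 748, 755, 893, 881, 743, 750, 777, 788, 202, 202,
   257, 266, 521, 528, 211, 196, 568, 571, 113, 104, 105, 89]

def X (k : ℕ) : ℤ := xs.getD k 0
def Y (k : ℕ) : ℤ := ys.getD k 0

/-- The component of the `k`-th point. -/
def cmp (k : ℕ) : ℕ := if k < 12 then k / 2 else 6 + (k - 12) / 4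

/-- Squared distance of the points `i` and `j`. -/
def d2 (i j : ℕ) : ℤ := (X i - X j) * (X i - X j) + (Y i - Y j) * (Y i - Y j)

lemma d2_comm (i j : ℕ) : d2 i j = d2 j i := by unfold d2; ring

/-- The value of a linear functional at the point `k`. -/
def val (d : ℤ × ℤ) (k : ℕ) : ℤ := d.1 * X k + d.2 * Y k

def dirs : List (ℤ × ℤ) :=
  [(0, 1), (0, -1), (1, 0), (-1, 0), (1, 1), (1, -1), (-1, 1), (-1, -1), (1, 5), (-1, -5)]

/-- Cross product at the point `k + 1`. -/
def crs (k : ℕ) : ℤ :=
  (X k - X (k + 1)) * (Y (k + 2) - Y (k + 1)) - (Y k - Y (k + 1)) * (X (k + 2) - X (k + 1))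

def sepCheck : Bool :=
  (List.range 15).all fun c => (List.range 15).all fun c' => c == c' ||
    dirs.any fun d => (List.range 48).all fun k => cmp k != c ||
      (List.range 48).all fun k' => cmp k' != c' || decide (val d k < val d k')

set_option maxRecDepth 100000 in
lemma sepCheck_true : sepCheck = true := by decide +kernel

lemma sep_comp {c c' : ℕ} (hc : c < 15) (hc' : c' < 15) (h : c ≠ c') :
    ∃ d : ℤ × ℤ, ∀ k < 48, ∀ k' < 48, cmp k = c → cmp k' = c' → val d k < val d k' := by
  have := sepCheck_true
  simp only [sepCheck, List.all_eq_true, List.any_eq_true, List.mem_range, Bool.or_eq_true,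
    beq_iff_eq, bne_iff_ne, decide_eq_true_eq] at this
  rcases this c hc c' hc' with h' | ⟨d, -, hd⟩
  · exact absurd h' h
  · refine ⟨d, fun k hk k' hk' e e' => ?_⟩
    rcases hd k hk with h1 | h1
    · exact absurd e h1
    · rcases h1 k' hk' with h2 | h2
      · exact absurd e' h2
      · exact h2

/-- Consecutive segments are not parallel. -/
lemma crs_ne : ∀ k < 46, cmp k = cmp (k + 2) → crs k ≠ 0 := by decide +kernel

/-- The two outer segments of a component with four points are separated. -/
lemma sep_whisk : ∀ k < 45, cmp k = cmp (k + 3) → ∃ d ∈ dirs,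
    val d k < val d (k + 2) ∧ val d k < val d (k + 3) ∧
    val d (k + 1) < val d (k + 2) ∧ val d (k + 1) < val d (k + 3) := by decide +kernel

lemma cmp_lt : ∀ k < 48, cmp k < 15 := by decide +kernel

lemma cmp_surj : ∀ c < 15, ∃ k < 47, cmp k = c ∧ cmp (k + 1) = c := by decide +kernel

lemma endpoint : ∀ k < 48, (k < 47 ∧ cmp k = cmp (k + 1)) ∨
    (1 ≤ k ∧ cmp (k - 1) = cmp k) := by decide +kernel

lemma close_of_cmp' : ∀ k < 47, ∀ k' < 47,
    (cmp k = cmp (k + 1) ∧ cmp k' = cmp (k' + 1) ∧ cmp k = cmp k' ∧ k < k') →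
      (k' = k + 1 ∨ k' = k + 2) := by decide +kernel

lemma close_of_cmp {k k' : ℕ} (hk : k < 47) (hk' : k' < 47) (h : cmp k = cmp (k + 1))
    (h' : cmp k' = cmp (k' + 1)) (e : cmp k = cmp k') (hlt : k < k') :
    k' = k + 1 ∨ k' = k + 2 := close_of_cmp' k hk k' hk' ⟨h, h', e, hlt⟩

def pairs : List (ℕ × ℕ) :=
  (List.range 48).flatMap fun j => (List.range j).map fun i => (i, j)

lemma mem_pairs {i j : ℕ} (hij : i < j) (hj : j < 48) : (i, j) ∈ pairs := by
  simp only [pairs, List.mem_flatMap, List.mem_map, List.mem_range, Prod.mk.injEq]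
  exact ⟨j, hj, i, hij, rfl, rfl⟩

def dists : List ℕ := pairs.map fun p => (d2 p.1 p.2).toNat

def bucketCheck : Bool :=
  let l := dists
  (List.range 97).all fun r => decide ((l.filter fun x => x % 97 == r).Nodup)

set_option maxRecDepth 100000 in
lemma bucketCheck_true : bucketCheck = true := by decide +kernel

lemma dists_nodup : dists.Nodup := by
  rw [List.nodup_iff_count_le_one]
  intro a
  have h := bucketCheck_true
  simp only [bucketCheck, List.all_eq_true, List.mem_range, decide_eq_true_eq] at h
  have h1 := h (a % 97) (Nat.mod_lt _ (by norm_num))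
  rw [List.nodup_iff_count_le_one] at h1
  have h2 := h1 a
  rwa [List.count_filter (by simp)] at h2

lemma d2_nonneg (i j : ℕ) : 0 ≤ d2 i j :=
  add_nonneg (mul_self_nonneg _) (mul_self_nonneg _)

/-- All the distances are distinct. -/
lemma d2_inj {i j k l : ℕ} (hij : i < j) (hj : j < 48) (hkl : k < l) (hl : l < 48)
    (h : d2 i j = d2 k l) : i = k ∧ j = l := by
  have := List.inj_on_of_nodup_map dists_nodup (mem_pairs hij hj) (mem_pairs hkl hl)
    (by simp only [h])
  simpa using this

lemma d2_ne_zero : ∀ i < 48, ∀ j < 48, i ≠ j → d2 i j ≠ 0 := by decide +kernel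

/-- The hub `c` sees the component `c'`, or conversely (finite form). -/
def seesB (c c' : ℕ) : Bool :=
  (List.range 48).any fun i => cmp i == c && (List.range 48).any fun j => cmp j == c' &&
    (List.range 48).all fun i' => cmp i' != c || i' == i || decide (d2 i j < d2 i i')

/-- Adjacency in the subdivided `K_{3,3}` in terms of component numbers. -/
def adjB (c c' : ℕ) : Bool :=
  (decide (c < 3) && decide (6 ≤ c') && (c' - 6) / 3 == c) ||
    (decide (3 ≤ c) && decide (c < 6) && decide (6 ≤ c') && (c' - 6) % 3 == c - 3)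

set_option maxRecDepth 100000 in
lemma sees_check : ∀ c < 15, ∀ c' < 15, c ≠ c' →
    (seesB c c' || seesB c' c) = (adjB c c' || adjB c' c) := by decide +kernel

end Pool.Agent.V8H12.Conf
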