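import Mathlib

/-!
# Conflict graphs and string graphs (definitions of MP_b1730f_co)

The plane is `ℂ` with its Euclidean metric.  A segment is recorded by the ordered pair of its two
endpoints.
-/

namespace Pool.Agent.V8H12.Conf

/-- The closed straight-line segment with endpoints `s.1` and `s.2`. -/
def seg (s : ℂ × ℂ) : Set ℂ := segment ℝ s.1 s.2

/-- Two segments are parallel: their direction vectors are proportional. -/
def Parallel (s t : ℂ × ℂ) : Prop :=
  ∃ x y : ℝ, (x ≠ 0 ∨ y ≠ 0) ∧ x • (s.2 - s.1) = y • (t.2 - t.1)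

/-- The special points: the endpoints of the segments and the pairwise intersection points. -/
def special (D : Finset (ℂ × ℂ)) : Set ℂ :=
  {z | (∃ s ∈ D, z = s.1 ∨ z = s.2) ∨ ∃ s ∈ D, ∃ t ∈ D, s ≠ t ∧ z ∈ seg s ∧ z ∈ seg t}

/-- `D` is (the set of segments of) a drawing: the segments are non-degenerate, any two
intersecting ones meet in a single point and are not parallel, and all pairwise distances
between special points are distinct. -/
structure IsDrawing (D : Finset (ℂ × ℂ)) : Prop where
  nondegenerate : ∀ s ∈ D, s.1 ≠ s.2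
  inter : ∀ s ∈ D, ∀ t ∈ D, s ≠ t → (seg s ∩ seg t).Nonempty →
    (∃ z, seg s ∩ seg t = {z}) ∧ ¬ Parallel s t
  dist_distinct : ∀ p ∈ special D, ∀ q ∈ special D, ∀ p' ∈ special D, ∀ q' ∈ special D,
    p ≠ q → p' ≠ q' → dist p q = dist p' q' → (p = p' ∧ q = q') ∨ (p = q' ∧ q = p')

/-- `D` is plane: no segment contains a special point in its relative interior. -/
def IsPlane (D : Finset (ℂ × ℂ)) : Prop :=
  ∀ s ∈ D, ∀ z ∈ special D, z ∈ seg s → z = s.1 ∨ z = s.2

/-- The drawing as a subset of the plane. -/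
def support (D : Finset (ℂ × ℂ)) : Set ℂ := ⋃ s ∈ D, seg s

/-- `C` is a connected component of the drawing (as a subset of the plane). -/
def IsComponent (D : Finset (ℂ × ℂ)) (C : Set ℂ) : Prop :=
  ∃ x ∈ support D, C = connectedComponentIn (support D) x

/-- `a` is the special point of `C ∖ {p}` nearest to `p`. -/
def IsNearest (D : Finset (ℂ × ℂ)) (C : Set ℂ) (p a : ℂ) : Prop :=
  (a ∈ special D ∧ a ∈ C ∧ a ≠ p) ∧
    ∀ a' ∈ special D, a' ∈ C → a' ≠ p → dist p a ≤ dist p a'

/-- The set `b(p)`: the special points of the drawing at distance strictly less than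
`d = dist p (a p)` from `p`. -/
def b (D : Finset (ℂ × ℂ)) (C : Set ℂ) (p : ℂ) : Set ℂ :=
  {q | q ∈ special D ∧ ∃ a, IsNearest D C p a ∧ dist p q < dist p a}

/-- Some special point `p ∈ C₁` has `b(p) ∩ C₂ ≠ ∅`. -/
def Sees (D : Finset (ℂ × ℂ)) (C₁ C₂ : Set ℂ) : Prop :=
  ∃ p ∈ special D, p ∈ C₁ ∧ (b D C₁ p ∩ C₂).Nonempty

/-- The conflict graph of a drawing: its vertices are the connected components; two distinct
components are adjacent when they conflict. -/
def conflictGraph (D : Finset (ℂ × ℂ)) : SimpleGraph {C : Set ℂ // IsComponent D C} where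
  Adj C₁ C₂ := C₁ ≠ C₂ ∧ (Sees D C₁ C₂ ∨ Sees D C₂ C₁)
  symm := ⟨fun _ _ h => ⟨h.1.symm, h.2.symm⟩⟩
  loopless := ⟨fun _ h => h.1 rfl⟩

/-- A graph is a conflict graph if it is isomorphic to the conflict graph of a plane drawing. -/
def IsConflictGraph {V : Type*} (G : SimpleGraph V) : Prop :=
  ∃ D : Finset (ℂ × ℂ), IsDrawing D ∧ IsPlane D ∧ Nonempty (G ≃g conflictGraph D)

/-- A graph is a string graph if there are curves `γ v` (continuous images of `[0,1]`) in the
plane such that two of them (for distinct vertices) intersect iff the vertices are adjacent. -/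
def IsStringGraph {V : Type*} (G : SimpleGraph V) : Prop :=
  ∃ γ : V → C(unitInterval, ℂ), ∀ u v, u ≠ v →
    ((Set.range (γ u) ∩ Set.range (γ v)).Nonempty ↔ G.Adj u v)

/-- The graph obtained from `K_{3,3}` by subdividing every edge once: the vertices are
`inl (inl i)` and `inl (inr j)` (the two sides of `K_{3,3}`) and `inr (i, j)` (the subdivision
vertex of the edge `ij`), which is adjacent to `inl (inl i)` and to `inl (inr j)`. -/
def subdividedK33 : SimpleGraph ((Fin 3 ⊕ Fin 3) ⊕ (Fin 3 × Fin 3)) :=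
  SimpleGraph.fromRel fun u v => ∃ i j : Fin 3, v = Sum.inr (i, j) ∧
    (u = Sum.inl (Sum.inl i) ∨ u = Sum.inl (Sum.inr j))

end Pool.Agent.V8H12.Conf
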