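import Pool.Agent.V8H12.Conf.Defs
import Pool.Agent.V8H12.Conf.Data

/-!
# The explicit drawing and its geometry
-/

namespace Pool.Agent.V8H12.Conf

/-- The `k`-th special point. -/
noncomputable def P (k : ℕ) : ℂ := ⟨(X k : ℝ), (Y k : ℝ)⟩

/-- `k` is the first index of a segment (joining the points `k` and `k+1`). -/
def Valid (k : ℕ) : Prop := k < 47 ∧ cmp k = cmp (k + 1)

instance : DecidablePred Valid := fun _ => by unfold Valid; infer_instance

/-- The segment with the points `k` and `k+1`. -/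
noncomputable def sg (k : ℕ) : ℂ × ℂ := (P k, P (k + 1))

/-- The drawing. -/
noncomputable def DD : Finset (ℂ × ℂ) := by
  classical exact ((Finset.range 47).filter Valid).image sg

lemma mem_DD {s : ℂ × ℂ} : s ∈ DD ↔ ∃ k, Valid k ∧ s = sg k := by
  classical
  unfold DD
  simp only [Finset.mem_image, Finset.mem_filter, Finset.mem_range]
  constructor
  · rintro ⟨k, ⟨-, h⟩, rfl⟩; exact ⟨k, h, rfl⟩
  · rintro ⟨k, h, rfl⟩; exact ⟨k, ⟨h.1, h⟩, rfl⟩

/-- real linear functional -/
def fv (d : ℤ × ℤ) (z : ℂ) : ℝ := d.1 * z.re + d.2 * z.im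

lemma fv_P (d : ℤ × ℤ) (k : ℕ) : fv d (P k) = (val d k : ℝ) := by
  simp [fv, P, val]

lemma fv_comb (d : ℤ × ℤ) (a b : ℝ) (z w : ℂ) :
    fv d (a • z + b • w) = a * fv d z + b * fv d w := by
  simp [fv]; ring

lemma seg_sep {d : ℤ × ℤ} {p q r s : ℂ} (h1 : fv d p < fv d r) (h2 : fv d p < fv d s)
    (h3 : fv d q < fv d r) (h4 : fv d q < fv d s) {z w : ℂ} (hz : z ∈ segment ℝ p q)
    (hw : w ∈ segment ℝ r s) : fv d z < fv d w := by
  obtain ⟨a, b, ha, hb, hab, rfl⟩ := hz
  obtain ⟨a', b', ha', hb', hab', rfl⟩ := hw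
  rw [fv_comb, fv_comb]
  have hM : a * fv d p + b * fv d q ≤ max (fv d p) (fv d q) := by
    have e1 := mul_le_mul_of_nonneg_left (le_max_left (fv d p) (fv d q)) ha
    have e2 := mul_le_mul_of_nonneg_left (le_max_right (fv d p) (fv d q)) hb
    have e3 : a * max (fv d p) (fv d q) + b * max (fv d p) (fv d q) = max (fv d p) (fv d q) := by
      rw [← add_mul, hab, one_mul]
    linarith
  have hm : min (fv d r) (fv d s) ≤ a' * fv d r + b' * fv d s := by
    have e1 := mul_le_mul_of_nonneg_left (min_le_left (fv d r) (fv d s)) ha'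
    have e2 := mul_le_mul_of_nonneg_left (min_le_right (fv d r) (fv d s)) hb'
    have e3 : a' * min (fv d r) (fv d s) + b' * min (fv d r) (fv d s) = min (fv d r) (fv d s) := by
      rw [← add_mul, hab', one_mul]
    linarith
  have : max (fv d p) (fv d q) < min (fv d r) (fv d s) := by
    rw [max_lt_iff, lt_min_iff, lt_min_iff]
    exact ⟨⟨h1, h2⟩, h3, h4⟩
  linarith

/-- Two segments with a common endpoint `x` and non-proportional directions. -/
lemma seg_cross {u x v z : ℂ}
    (hc : (u.re - x.re) * (v.im - x.im) - (u.im - x.im) * (v.re - x.re) ≠ 0)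
    (hz : z ∈ segment ℝ u x) (hz' : z ∈ segment ℝ x v) : z = x := by
  obtain ⟨a, b, ha, hb, hab, rfl⟩ := hz
  obtain ⟨a', b', ha', hb', hab', e⟩ := hz'
  have er := congrArg Complex.re e
  have ei := congrArg Complex.im e
  simp only [Complex.add_re, Complex.real_smul, Complex.mul_re, Complex.ofReal_re,
    Complex.ofReal_im, zero_mul, sub_zero, Complex.add_im, Complex.mul_im, add_zero] at er ei
  have hb1 : b = 1 - a := by linarith
  have ha1 : a' = 1 - b' := by linarith
  subst hb1; subst ha1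
  have h1 : a * ((u.re - x.re) * (v.im - x.im) - (u.im - x.im) * (v.re - x.re)) = 0 := by
    linear_combination (-(v.im - x.im)) * er + (v.re - x.re) * ei
  have ha0 : a = 0 := (mul_eq_zero.mp h1).resolve_right hc
  subst ha0
  simp

lemma crs_real {k : ℕ} (h : crs k ≠ 0) :
    ((P k).re - (P (k + 1)).re) * ((P (k + 2)).im - (P (k + 1)).im) -
      ((P k).im - (P (k + 1)).im) * ((P (k + 2)).re - (P (k + 1)).re) ≠ 0 := by
  have : ((P k).re - (P (k + 1)).re) * ((P (k + 2)).im - (P (k + 1)).im) -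
      ((P k).im - (P (k + 1)).im) * ((P (k + 2)).re - (P (k + 1)).re) = (crs k : ℝ) := by
    simp [P, crs]
  rw [this]
  exact_mod_cast h

lemma Valid.succ_cmp {k : ℕ} (h : Valid k) (h' : Valid (k + 1)) : cmp k = cmp (k + 2) :=
  h.2.trans h'.2

/-- Main lemma: two different segments meet only when consecutive, in the common endpoint. -/
lemma inter_main {k k' : ℕ} (hk : Valid k) (hk' : Valid k') (hlt : k < k') {z : ℂ}
    (hz : z ∈ seg (sg k)) (hz' : z ∈ seg (sg k')) : k' = k + 1 ∧ z = P (k + 1) := by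
  have l1 := hk.1
  have l2 := hk'.1
  by_cases hc : cmp k = cmp k'
  · rcases close_of_cmp hk.1 hk'.1 hk.2 hk'.2 hc hlt with rfl | rfl
    · refine ⟨rfl, ?_⟩
      exact seg_cross (crs_real (crs_ne k (by omega) (hk.succ_cmp hk'))) hz hz'
    · exfalso
      have hc3 : cmp k = cmp (k + 3) := hc.trans hk'.2
      obtain ⟨d, -, h1, h2, h3, h4⟩ := sep_whisk k (by omega) hc3
      have := seg_sep (d := d) (p := P k) (q := P (k + 1)) (r := P (k + 2)) (s := P (k + 3))
        (by rw [fv_P, fv_P]; exact_mod_cast h1) (by rw [fv_P, fv_P]; exact_mod_cast h2)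
        (by rw [fv_P, fv_P]; exact_mod_cast h3) (by rw [fv_P, fv_P]; exact_mod_cast h4) hz hz'
      exact lt_irrefl _ this
  · exfalso
    obtain ⟨d, hd⟩ := sep_comp (cmp_lt k (by omega)) (cmp_lt k' (by omega)) hc
    have := seg_sep (d := d) (p := P k) (q := P (k + 1)) (r := P k') (s := P (k' + 1))
      (by rw [fv_P, fv_P]; exact_mod_cast hd k (by omega) k' (by omega) rfl rfl)
      (by rw [fv_P, fv_P]; exact_mod_cast hd k (by omega) (k' + 1) (by omega) rfl hk'.2.symm)
      (by rw [fv_P, fv_P]; exact_mod_cast hd (k + 1) (by omega) k' (by omega) hk.2.symm rfl)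
      (by rw [fv_P, fv_P]; exact_mod_cast
        hd (k + 1) (by omega) (k' + 1) (by omega) hk.2.symm hk'.2.symm) hz hz'
    exact lt_irrefl _ this

lemma dist_P (i j : ℕ) : dist (P i) (P j) = Real.sqrt (d2 i j : ℝ) := by
  rw [Complex.dist_eq_re_im]
  congr 1
  simp [P, d2]
  ring

lemma dist_lt_iff (i j k l : ℕ) : dist (P i) (P j) < dist (P k) (P l) ↔ d2 i j < d2 k l := by
  rw [dist_P, dist_P, Real.sqrt_lt_sqrt_iff (by exact_mod_cast d2_nonneg i j)]
  exact_mod_cast Iff.rfl

lemma dist_le_iff (i j k l : ℕ) : dist (P i) (P j) ≤ dist (P k) (P l) ↔ d2 i j ≤ d2 k l := by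
  rw [dist_P, dist_P, Real.sqrt_le_sqrt_iff (by exact_mod_cast d2_nonneg k l)]
  exact_mod_cast Iff.rfl

lemma dist_eq_iff (i j k l : ℕ) : dist (P i) (P j) = dist (P k) (P l) ↔ d2 i j = d2 k l := by
  rw [le_antisymm_iff, le_antisymm_iff, dist_le_iff, dist_le_iff]

lemma P_inj {i j : ℕ} (hi : i < 48) (hj : j < 48) (h : P i = P j) : i = j := by
  by_contra hne
  apply d2_ne_zero i hi j hj hne
  have : d2 i j = d2 j j := by
    rw [← dist_eq_iff, h]
  rw [this]; unfold d2; ring

lemma mem_left (k : ℕ) : P k ∈ seg (sg k) := left_mem_segment ℝ _ _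
lemma mem_right (k : ℕ) : P (k + 1) ∈ seg (sg k) := right_mem_segment ℝ _ _

lemma mem_special {z : ℂ} : z ∈ special DD ↔ ∃ k < 48, z = P k := by
  constructor
  · rintro (⟨s, hs, h⟩ | ⟨s, hs, t, ht, hst, hz, hz'⟩)
    · obtain ⟨k, hk, rfl⟩ := mem_DD.mp hs
      have := hk.1
      rcases h with rfl | rfl
      · exact ⟨k, by omega, rfl⟩
      · exact ⟨k + 1, by omega, rfl⟩
    · obtain ⟨k, hk, rfl⟩ := mem_DD.mp hs
      obtain ⟨k', hk', rfl⟩ := mem_DD.mp ht
      have l1 := hk.1
      have l2 := hk'.1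
      have hne : k ≠ k' := fun e => hst (by rw [e])
      rcases lt_or_gt_of_ne hne with h | h
      · exact ⟨k + 1, by omega, (inter_main hk hk' h hz hz').2⟩
      · exact ⟨k' + 1, by omega, (inter_main hk' hk h hz' hz).2⟩
  · rintro ⟨k, hk, rfl⟩
    left
    rcases endpoint k hk with h | ⟨h1, h2⟩
    · exact ⟨sg k, mem_DD.mpr ⟨k, h, rfl⟩, Or.inl rfl⟩
    · obtain ⟨m, rfl⟩ : ∃ m, k = m + 1 := ⟨k - 1, by omega⟩
      refine ⟨sg m, mem_DD.mpr ⟨m, ⟨by omega, ?_⟩, rfl⟩, Or.inr rfl⟩
      simpa using h2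

/-- A special point on a segment is one of its ends. -/
lemma special_on_seg {k j : ℕ} (hk : Valid k) (hj : j < 48) (h : P j ∈ seg (sg k)) :
    j = k ∨ j = k + 1 := by
  have l1 := hk.1
  have key : ∀ m, Valid m → (j = m ∨ j = m + 1) → j = k ∨ j = k + 1 := by
    intro m hm hjm
    have l2 := hm.1
    have hmem : P j ∈ seg (sg m) := by
      rcases hjm with rfl | rfl
      · exact mem_left _
      · exact mem_right _
    rcases lt_trichotomy k m with h' | h' | h'
    · right
      exact P_inj hj (by omega) (inter_main hk hm h' h hmem).2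
    · subst h'; exact hjm
    · left
      obtain ⟨e1, e2⟩ := inter_main hm hk h' hmem h
      have := P_inj hj (by omega) e2
      omega
  rcases endpoint j hj with h' | ⟨h1, h2⟩
  · exact key j h' (Or.inl rfl)
  · refine key (j - 1) ⟨by omega, ?_⟩ (Or.inr (by omega))
    rw [Nat.sub_add_cancel h1]; exact h2

theorem isPlane_DD : IsPlane DD := by
  intro s hs z hz hzs
  obtain ⟨k, hk, rfl⟩ := mem_DD.mp hs
  obtain ⟨j, hj, rfl⟩ := mem_special.mp hz
  rcases special_on_seg hk hj hzs with rfl | rfl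
  · exact Or.inl rfl
  · exact Or.inr rfl

lemma not_parallel_of_crs {k : ℕ} (h : crs k ≠ 0) : ¬ Parallel (sg k) (sg (k + 1)) := by
  rintro ⟨x, y, hxy, e⟩
  have hc := crs_real h
  have er := congrArg Complex.re e
  have ei := congrArg Complex.im e
  simp only [sg, Complex.real_smul, Complex.mul_re, Complex.ofReal_re,
    Complex.ofReal_im, zero_mul, sub_zero, Complex.mul_im, add_zero, Complex.sub_re,
    Complex.sub_im] at er ei
  rw [show k + 1 + 1 = k + 2 from rfl] at er ei
  have hx : x * (((P k).re - (P (k + 1)).re) * ((P (k + 2)).im - (P (k + 1)).im) -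
      ((P k).im - (P (k + 1)).im) * ((P (k + 2)).re - (P (k + 1)).re)) = 0 := by
    linear_combination (-((P (k + 2)).im - (P (k + 1)).im)) * er +
      ((P (k + 2)).re - (P (k + 1)).re) * ei
  have hy : y * (((P k).re - (P (k + 1)).re) * ((P (k + 2)).im - (P (k + 1)).im) -
      ((P k).im - (P (k + 1)).im) * ((P (k + 2)).re - (P (k + 1)).re)) = 0 := by
    linear_combination (((P k).im - (P (k + 1)).im)) * er -
      ((P k).re - (P (k + 1)).re) * ei
  rcases hxy with h0 | h0
  · exact h0 ((mul_eq_zero.mp hx).resolve_right hc)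
  · exact h0 ((mul_eq_zero.mp hy).resolve_right hc)

lemma Parallel.symm {s t : ℂ × ℂ} (h : Parallel s t) : Parallel t s := by
  obtain ⟨x, y, hxy, e⟩ := h
  exact ⟨y, x, hxy.symm, e.symm⟩

lemma inter_aux {k k' : ℕ} (hk : Valid k) (hk' : Valid k') (hlt : k < k')
    (hne : (seg (sg k) ∩ seg (sg k')).Nonempty) :
    (∃ z, seg (sg k) ∩ seg (sg k') = {z}) ∧ ¬ Parallel (sg k) (sg k') := by
  obtain ⟨z, hz, hz'⟩ := hne
  obtain ⟨rfl, rfl⟩ := inter_main hk hk' hlt hz hz'
  refine ⟨⟨P (k + 1), ?_⟩, ?_⟩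
  · ext w
    simp only [Set.mem_inter_iff, Set.mem_singleton_iff]
    constructor
    · rintro ⟨h1, h2⟩; exact (inter_main hk hk' hlt h1 h2).2
    · rintro rfl; exact ⟨hz, hz'⟩
  · have := hk'.1
    exact not_parallel_of_crs (crs_ne k (by omega) (hk.succ_cmp hk'))

lemma d2_eq_cases {i j k l : ℕ} (hi : i < 48) (hj : j < 48) (hk : k < 48) (hl : l < 48)
    (hij : i ≠ j) (hkl : k ≠ l) (h : d2 i j = d2 k l) :
    (i = k ∧ j = l) ∨ (i = l ∧ j = k) := by
  rcases lt_or_gt_of_ne hij with h1 | h1 <;> rcases lt_or_gt_of_ne hkl with h2 | h2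
  · exact Or.inl (d2_inj h1 hj h2 hl h)
  · rw [d2_comm k l] at h
    exact Or.inr (d2_inj h1 hj h2 hk h)
  · rw [d2_comm i j] at h
    have := d2_inj h1 hi h2 hl h
    exact Or.inr ⟨this.2, this.1⟩
  · rw [d2_comm i j, d2_comm k l] at h
    have := d2_inj h1 hi h2 hk h
    exact Or.inl ⟨this.2, this.1⟩

theorem isDrawing_DD : IsDrawing DD where
  nondegenerate := by
    intro s hs
    obtain ⟨k, hk, rfl⟩ := mem_DD.mp hs
    have := hk.1
    intro h
    have := P_inj (by omega) (by omega) h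
    omega
  inter := by
    intro s hs t ht hst hne
    obtain ⟨k, hk, rfl⟩ := mem_DD.mp hs
    obtain ⟨k', hk', rfl⟩ := mem_DD.mp ht
    have hne' : k ≠ k' := fun e => hst (by rw [e])
    rcases lt_or_gt_of_ne hne' with h | h
    · exact inter_aux hk hk' h hne
    · rw [Set.inter_comm] at hne ⊢
      have := inter_aux hk' hk h hne
      exact ⟨this.1, fun hp => this.2 hp.symm⟩
  dist_distinct := by
    intro p hp q hq p' hp' q' hq' hne hne' h
    obtain ⟨i, hi, rfl⟩ := mem_special.mp hp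
    obtain ⟨j, hj, rfl⟩ := mem_special.mp hq
    obtain ⟨k, hk, rfl⟩ := mem_special.mp hp'
    obtain ⟨l, hl, rfl⟩ := mem_special.mp hq'
    rw [dist_eq_iff] at h
    rcases d2_eq_cases hi hj hk hl (fun e => hne (by rw [e])) (fun e => hne' (by rw [e])) h with
      ⟨rfl, rfl⟩ | ⟨rfl, rfl⟩
    · exact Or.inl ⟨rfl, rfl⟩
    · exact Or.inr ⟨rfl, rfl⟩

end Pool.Agent.V8H12.Conf
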