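import Mathlib

/-!
# Non-planarity of `K_{3,3}` by continuous logarithms

Nine paths `f i j` from `a i` to `b j` in `ℂ`, such that paths with no common end are disjoint,
cannot exist.
-/

namespace Pool.Agent.V8H12.Conf

open Complex

/-- `v` is the total change along `[0,1]` of a continuous logarithm of `g`. -/
def IsVar (g : unitInterval → ℂ) (v : ℂ) : Prop :=
  ∃ L : unitInterval → ℂ, Continuous L ∧ (∀ t, exp (L t) = g t) ∧ v = L 1 - L 0

lemma lift_eq {L L' : unitInterval → ℂ} (hL : Continuous L) (hL' : Continuous L')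
    (h : ∀ t, exp (L t) = exp (L' t)) (h0 : L 0 = L' 0) : L = L' := by
  refine isCoveringMap_exp.eq_of_comp_eq hL hL' ?_ 0 h0
  funext t
  exact Subtype.ext (h t)

lemma IsVar.unique {g : unitInterval → ℂ} {v v' : ℂ} (h : IsVar g v) (h' : IsVar g v') : v = v' := by
  obtain ⟨L, hLc, hL, rfl⟩ := h
  obtain ⟨L', hLc', hL', rfl⟩ := h'
  have hc : exp (L 0 - L' 0) = 1 := by
    rw [exp_sub, hL, hL', div_self]
    rw [← hL 0]; exact exp_ne_zero _
  have := lift_eq (L := L) (L' := fun t => L' t + (L 0 - L' 0)) hLc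
    (hLc'.add continuous_const) (fun t => by rw [exp_add, hc, hL, hL', mul_one]) (by ring)
  have h1 := congrFun this 1
  rw [h1]; ring

lemma IsVar.neg {g : unitInterval → ℂ} {v : ℂ} (h : IsVar g v) : IsVar (fun t => - g t) v := by
  obtain ⟨L, hLc, hL, rfl⟩ := h
  refine ⟨fun t => L t + Real.pi * I, hLc.add continuous_const, fun t => ?_, by ring⟩
  rw [exp_add, hL, exp_pi_mul_I]; ring

lemma IsVar.exp_eq {g : unitInterval → ℂ} {v : ℂ} (h : IsVar g v) : exp v = g 1 / g 0 := by
  obtain ⟨L, hLc, hL, rfl⟩ := h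
  rw [exp_sub, hL, hL]

/-- Existence of a continuous logarithm on the square. -/
lemma exists_log_square {F : unitInterval × unitInterval → ℂ} (hF : Continuous F) (h0 : ∀ x, F x ≠ 0) :
    ∃ G : unitInterval × unitInterval → ℂ, Continuous G ∧ ∀ x, exp (G x) = F x := by
  let H : C(unitInterval × unitInterval, {z : ℂ // z ≠ 0}) := ⟨fun x => ⟨F x, h0 x⟩, by fun_prop⟩
  let γ : C(unitInterval, {z : ℂ // z ≠ 0}) := ⟨fun t => H (0, t), by fun_prop⟩
  have hγ : γ 0 = (fun z : ℂ ↦ (⟨_, z.exp_ne_zero⟩ : {z : ℂ // z ≠ 0})) (log (γ 0)) := by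
    apply Subtype.ext
    simp only [exp_log (γ 0).2]
  let f := isCoveringMap_exp.liftPath γ (log (γ 0)) hγ
  have hf : ∀ a, H (0, a) = (fun z : ℂ ↦ (⟨_, z.exp_ne_zero⟩ : {z : ℂ // z ≠ 0})) (f a) := by
    intro a
    have := congrFun (isCoveringMap_exp.liftPath_lifts γ (log (γ 0)) hγ) a
    exact this.symm
  refine ⟨isCoveringMap_exp.liftHomotopy H f hf, ContinuousMap.continuous _, fun x => ?_⟩
  have := congrFun (isCoveringMap_exp.liftHomotopy_lifts H f hf) x
  exact congrArg Subtype.val this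

/-- Two disjoint paths: the four variations around the square. -/
lemma square_rel {f h : unitInterval → ℂ} (hf : Continuous f) (hh : Continuous h)
    (hne : ∀ s t, f s ≠ h t) :
    ∃ u v u' v' : ℂ, IsVar (fun s => f s - h 0) u ∧ IsVar (fun t => h t - f 1) v ∧
      IsVar (fun s => f s - h 1) u' ∧ IsVar (fun t => h t - f 0) v' ∧ u + v = v' + u' := by
  obtain ⟨G, hGc, hG⟩ := exists_log_square (F := fun x => f x.1 - h x.2) (by fun_prop)
    (fun x => sub_ne_zero.mpr (hne _ _))
  refine ⟨G (1, 0) - G (0, 0), G (1, 1) - G (1, 0), G (1, 1) - G (0, 1), G (0, 1) - G (0, 0),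
    ?_, ?_, ?_, ?_, by ring⟩
  · exact ⟨fun s => G (s, 0), by fun_prop, fun s => hG (s, 0), rfl⟩
  · have : IsVar (fun t => f 1 - h t) (G (1, 1) - G (1, 0)) :=
      ⟨fun t => G (1, t), by fun_prop, fun t => hG (1, t), rfl⟩
    simpa using this.neg
  · exact ⟨fun s => G (s, 1), by fun_prop, fun s => hG (s, 1), rfl⟩
  · have : IsVar (fun t => f 0 - h t) (G (0, 1) - G (0, 0)) :=
      ⟨fun t => G (0, t), by fun_prop, fun t => hG (0, t), rfl⟩
    simpa using this.neg

/-- The variation of `f - x`, if it exists. -/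
noncomputable def vr (f : unitInterval → ℂ) (x : ℂ) : ℂ :=
  open Classical in if h : ∃ v, IsVar (fun t => f t - x) v then h.choose else 0

lemma vr_eq {f : unitInterval → ℂ} {x v : ℂ} (h : IsVar (fun t => f t - x) v) : vr f x = v := by
  have h' : ∃ v, IsVar (fun t => f t - x) v := ⟨v, h⟩
  rw [vr, dif_pos h']
  exact h'.choose_spec.unique h

lemma square_rel' {f h : unitInterval → ℂ} (hf : Continuous f) (hh : Continuous h)
    (hne : ∀ s t, f s ≠ h t) :
    vr f (h 0) + vr h (f 1) = vr h (f 0) + vr f (h 1) ∧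
      exp (vr f (h 0)) = (f 1 - h 0) / (f 0 - h 0) ∧
      exp (vr f (h 1)) = (f 1 - h 1) / (f 0 - h 1) ∧
      exp (vr h (f 0)) = (h 1 - f 0) / (h 0 - f 0) ∧
      exp (vr h (f 1)) = (h 1 - f 1) / (h 0 - f 1) := by
  obtain ⟨u, v, u', v', hu, hv, hu', hv', e⟩ := square_rel hf hh hne
  rw [vr_eq hu, vr_eq hv, vr_eq hu', vr_eq hv']
  exact ⟨e, hu.exp_eq, hu'.exp_eq, hv'.exp_eq, hv.exp_eq⟩

/-- Consistent logarithms of the differences of three distinct points. -/
lemma exists_logs (a : Fin 3 → ℂ) (ha : ∀ i k, i ≠ k → a i ≠ a k) :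
    ∃ α : Fin 3 → Fin 3 → ℂ, (∀ i k, i ≠ k → exp (α i k) = a i - a k) ∧
      ∀ i k, i < k → α k i = α i k + Real.pi * I := by
  refine ⟨fun i k => if i < k then log (a i - a k) else log (a k - a i) + Real.pi * I, ?_, ?_⟩
  · intro i k hik
    rcases lt_or_gt_of_ne hik with h | h
    · simp only [h, if_true]
      exact exp_log (sub_ne_zero.mpr (ha i k hik))
    · have h' : ¬ i < k := not_lt.mpr h.le
      simp only [h', if_false]
      rw [exp_add, exp_log (sub_ne_zero.mpr (ha k i hik.symm)), exp_pi_mul_I]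
      ring
  · intro i k hik
    have h' : ¬ k < i := not_lt.mpr hik.le
    simp only [hik, h', if_true, if_false]

/-- **`K_{3,3}` is not planar** (continuous form). -/
theorem no_K33 (a b : Fin 3 → ℂ) (f : Fin 3 → Fin 3 → unitInterval → ℂ)
    (hf : ∀ i j, Continuous (f i j)) (h0 : ∀ i j, f i j 0 = a i) (h1 : ∀ i j, f i j 1 = b j)
    (hne : ∀ i k j l, i ≠ k → j ≠ l → ∀ s t, f i j s ≠ f k l t) : False := by
  have haa : ∀ i k, i ≠ k → a i ≠ a k := by
    intro i k hik
    have := hne i k 0 1 hik (by decide) 0 0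
    rwa [h0, h0] at this
  have hbb : ∀ j l, j ≠ l → b j ≠ b l := by
    intro j l hjl
    have := hne 0 1 j l (by decide) hjl 1 1
    rwa [h1, h1] at this
  have hba : ∀ j k, b j ≠ a k := by
    intro j k
    obtain ⟨i, hi⟩ : ∃ i : Fin 3, i ≠ k := ⟨k + 1, by revert k; decide⟩
    obtain ⟨l, hl⟩ : ∃ l : Fin 3, j ≠ l := ⟨j + 1, by revert j; decide⟩
    have := hne i k j l hi hl 1 0
    rwa [h0, h1] at this
  obtain ⟨α, hα, hα'⟩ := exists_logs a haa
  obtain ⟨β, hβ, hβ'⟩ := exists_logs b hbb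
  have hγ : ∀ j k, exp (log (b j - a k)) = b j - a k := fun j k =>
    exp_log (sub_ne_zero.mpr (hba j k))
  set γ : Fin 3 → Fin 3 → ℂ := fun j k => log (b j - a k) with hγdef
  have hγ' : ∀ j k, exp (γ j k) = b j - a k := hγ
  -- integer parts
  have key : ∀ i k j l, i ≠ k → j ≠ l →
      vr (f i j) (a k) + vr (f k l) (b j) = vr (f k l) (a i) + vr (f i j) (b l) ∧
      exp (vr (f i j) (a k)) = (b j - a k) / (a i - a k) ∧
      exp (vr (f i j) (b l)) = (b j - b l) / (a i - b l) := by
    intro i k j l hik hjl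
    have := square_rel' (hf i j) (hf k l) (hne i k j l hik hjl)
    rw [h0, h0, h1, h1] at this
    exact ⟨this.1, this.2.1, this.2.2.1⟩
  have hm : ∀ i j k, i ≠ k → ∃ m : ℤ, vr (f i j) (a k) = γ j k - α i k + m * (2 * Real.pi * I) := by
    intro i j k hik
    obtain ⟨l, hl⟩ : ∃ l : Fin 3, j ≠ l := ⟨j + 1, by revert j; decide⟩
    have := (key i k j l hik hl).2.1
    rw [← hγ' j k, ← hα i k hik, ← exp_sub, exp_eq_exp_iff_exists_int] at this
    exact this
  have hn : ∀ i j l, j ≠ l → ∃ n : ℤ, vr (f i j) (b l) =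
      β j l - γ l i - Real.pi * I + n * (2 * Real.pi * I) := by
    intro i j l hjl
    obtain ⟨k, hk⟩ : ∃ k : Fin 3, i ≠ k := ⟨i + 1, by revert i; decide⟩
    have := (key i k j l hk hjl).2.2
    have e1 : a i - b l = exp (γ l i + Real.pi * I) := by
      rw [exp_add, hγ', exp_pi_mul_I]; ring
    rw [e1, ← hβ j l hjl, ← exp_sub, exp_eq_exp_iff_exists_int] at this
    obtain ⟨n, hn⟩ := this
    exact ⟨n, by rw [hn]; ring⟩
  choose! m hm using hm
  choose! n hn using hn
  have hpi : (2 * (Real.pi : ℂ) * I) ≠ 0 := by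
    simp [Real.pi_ne_zero]
  -- the integer relations
  have rel1 : ∀ i k j l, i < k → j < l →
      1 + m i j k + n k l j - n i j l - m k l i = 0 := by
    intro i k j l hik hjl
    have h := (key i k j l hik.ne hjl.ne).1
    rw [hm i j k hik.ne, hm k l i hik.ne', hn k l j hjl.ne', hn i j l hjl.ne,
      hα' i k hik, hβ' j l hjl] at h
    have h2 : ((1 + m i j k + n k l j - n i j l - m k l i : ℤ) : ℂ) * (2 * (Real.pi : ℂ) * I) = 0 := by
      push_cast
      linear_combination h
    have h3 := (mul_eq_zero.mp h2).resolve_right hpi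
    exact_mod_cast h3
  have rel0 : ∀ i k j l, i < k → l < j →
      m i j k + n k l j - n i j l - m k l i = 0 := by
    intro i k j l hik hjl
    have h := (key i k j l hik.ne hjl.ne').1
    rw [hm i j k hik.ne, hm k l i hik.ne', hn k l j hjl.ne, hn i j l hjl.ne',
      hα' i k hik, hβ' l j hjl] at h
    have h2 : ((m i j k + n k l j - n i j l - m k l i : ℤ) : ℂ) * (2 * (Real.pi : ℂ) * I) = 0 := by
      push_cast
      linear_combination h
    have h3 := (mul_eq_zero.mp h2).resolve_right hpi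
    exact_mod_cast h3
  have r01_01 := rel1 0 1 0 1 (by decide) (by decide)
  have r01_02 := rel1 0 1 0 2 (by decide) (by decide)
  have r01_12 := rel1 0 1 1 2 (by decide) (by decide)
  have r02_01 := rel1 0 2 0 1 (by decide) (by decide)
  have r02_02 := rel1 0 2 0 2 (by decide) (by decide)
  have r02_12 := rel1 0 2 1 2 (by decide) (by decide)
  have r12_01 := rel1 1 2 0 1 (by decide) (by decide)
  have r12_02 := rel1 1 2 0 2 (by decide) (by decide)
  have r12_12 := rel1 1 2 1 2 (by decide) (by decide)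
  have q01_01 := rel0 0 1 1 0 (by decide) (by decide)
  have q01_02 := rel0 0 1 2 0 (by decide) (by decide)
  have q01_12 := rel0 0 1 2 1 (by decide) (by decide)
  have q02_01 := rel0 0 2 1 0 (by decide) (by decide)
  have q02_02 := rel0 0 2 2 0 (by decide) (by decide)
  have q02_12 := rel0 0 2 2 1 (by decide) (by decide)
  have q12_01 := rel0 1 2 1 0 (by decide) (by decide)
  have q12_02 := rel0 1 2 2 0 (by decide) (by decide)
  have q12_12 := rel0 1 2 2 1 (by decide) (by decide)
  omega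

end Pool.Agent.V8H12.Conf
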