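import Pool.Agent.V8H12.Conf.Geom
import Pool.Agent.V8H12.Conf.Winding

/-!
# The conflict graph of the explicit drawing is the subdivided `K_{3,3}`, which is no string graph
-/

namespace Pool.Agent.V8H12.Conf

/-- The component number `c`. -/
def KK (c : ℕ) : Set ℂ := ⋃ k ∈ {k | Valid k ∧ cmp k = c}, seg (sg k)

lemma mem_KK {c : ℕ} {z : ℂ} : z ∈ KK c ↔ ∃ k, Valid k ∧ cmp k = c ∧ z ∈ seg (sg k) := by
  simp [KK, and_assoc]

lemma support_eq : support DD = ⋃ c ∈ {c | c < 15}, KK c := by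
  ext z
  simp only [support, Set.mem_iUnion, Set.mem_ofPred_eq, exists_prop, mem_KK]
  constructor
  · rintro ⟨s, hs, hz⟩
    obtain ⟨k, hk, rfl⟩ := mem_DD.mp hs
    have := hk.1
    exact ⟨cmp k, cmp_lt k (by omega), k, hk, rfl, hz⟩
  · rintro ⟨c, hc, k, hk, -, hz⟩
    exact ⟨sg k, mem_DD.mpr ⟨k, hk, rfl⟩, hz⟩

lemma KK_sub_support {c : ℕ} (hc : c < 15) : KK c ⊆ support DD := by
  rw [support_eq]
  exact Set.subset_biUnion_of_mem (u := fun c => KK c) (show c ∈ {c | c < 15} from hc)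

lemma isPreconnected_seg (s : ℂ × ℂ) : IsPreconnected (seg s) :=
  (convex_segment s.1 s.2).isPreconnected

lemma valid_hub : ∀ c < 6, Valid (2 * c) ∧ ∀ k < 47, (Valid k ∧ cmp k = c) → k = 2 * c := by
  decide +kernel

lemma valid_mid : ∀ r < 9, (Valid (12 + 4 * r) ∧ Valid (12 + 4 * r + 1) ∧ Valid (12 + 4 * r + 2)) ∧
    (cmp (12 + 4 * r) = 6 + r ∧ cmp (12 + 4 * r + 1) = 6 + r ∧ cmp (12 + 4 * r + 2) = 6 + r) ∧
    ∀ k < 47, (Valid k ∧ cmp k = 6 + r) →
      (k = 12 + 4 * r ∨ k = 12 + 4 * r + 1 ∨ k = 12 + 4 * r + 2) := by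
  decide +kernel

lemma cmp_hub : ∀ c < 6, cmp (2 * c) = c := by decide +kernel

lemma isPreconnected_KK {c : ℕ} (hc : c < 15) : IsPreconnected (KK c) := by
  by_cases h6 : c < 6
  · have : KK c = seg (sg (2 * c)) := by
      ext z
      rw [mem_KK]
      constructor
      · rintro ⟨k, hk, hkc, hz⟩
        rw [(valid_hub c h6).2 k hk.1 ⟨hk, hkc⟩] at hz
        exact hz
      · intro hz
        exact ⟨2 * c, (valid_hub c h6).1, cmp_hub c h6, hz⟩
    rw [this]
    exact isPreconnected_seg _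
  · obtain ⟨r, rfl⟩ : ∃ r, c = 6 + r := ⟨c - 6, by omega⟩
    obtain ⟨⟨v1, v2, v3⟩, ⟨c1, c2, c3⟩, hall⟩ := valid_mid r (by omega)
    have : KK (6 + r) = (seg (sg (12 + 4 * r)) ∪ seg (sg (12 + 4 * r + 1))) ∪
        seg (sg (12 + 4 * r + 2)) := by
      ext z
      rw [mem_KK]
      constructor
      · rintro ⟨k, hk, hkc, hz⟩
        rcases hall k hk.1 ⟨hk, hkc⟩ with rfl | rfl | rfl
        · exact Or.inl (Or.inl hz)
        · exact Or.inl (Or.inr hz)
        · exact Or.inr hz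
      · rintro ((hz | hz) | hz)
        · exact ⟨_, v1, c1, hz⟩
        · exact ⟨_, v2, c2, hz⟩
        · exact ⟨_, v3, c3, hz⟩
    rw [this]
    refine IsPreconnected.union (P (12 + 4 * r + 2)) ?_ (mem_left _) ?_ (isPreconnected_seg _)
    · exact Or.inr (mem_right _)
    · exact IsPreconnected.union (P (12 + 4 * r + 1)) (mem_right _) (mem_left _)
        (isPreconnected_seg _) (isPreconnected_seg _)

lemma isClosed_KK (c : ℕ) : IsClosed (KK c) := by
  have hfin : {k | Valid k ∧ cmp k = c}.Finite :=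
    (Set.finite_lt_nat 47).subset fun k hk => hk.1.1
  refine hfin.isClosed_biUnion fun k _ => ?_
  have : IsCompact (segment ℝ (sg k).1 (sg k).2) := by
    rw [segment_eq_image]
    exact isCompact_Icc.image (by fun_prop)
  exact this.isClosed

lemma disjoint_KK {c c' : ℕ} (h : c ≠ c') : Disjoint (KK c) (KK c') := by
  rw [Set.disjoint_left]
  intro z hz hz'
  obtain ⟨k, hk, rfl, hzk⟩ := mem_KK.mp hz
  obtain ⟨k', hk', rfl, hzk'⟩ := mem_KK.mp hz'
  have hne : k ≠ k' := fun e => h (by rw [e])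
  rcases lt_or_gt_of_ne hne with hlt | hlt
  · obtain ⟨rfl, -⟩ := inter_main hk hk' hlt hzk hzk'
    exact h hk.2
  · obtain ⟨rfl, -⟩ := inter_main hk' hk hlt hzk' hzk
    exact h hk'.2.symm

lemma component_eq {c : ℕ} (hc : c < 15) {x : ℂ} (hx : x ∈ KK c) :
    connectedComponentIn (support DD) x = KK c := by
  apply Set.Subset.antisymm
  · have hpre : IsPreconnected (connectedComponentIn (support DD) x) :=
      isPreconnected_connectedComponentIn
    have hsub : connectedComponentIn (support DD) x ⊆ KK c ∪ ⋃ c' ∈ {c' | c' < 15 ∧ c' ≠ c}, KK c' := by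
      refine (connectedComponentIn_subset _ _).trans ?_
      rw [support_eq]
      intro z hz
      simp only [Set.mem_iUnion, Set.mem_ofPred_eq, exists_prop] at hz
      obtain ⟨c', hc', hz⟩ := hz
      by_cases h : c' = c
      · subst h; exact Or.inl hz
      · refine Or.inr ?_
        simp only [Set.mem_iUnion, Set.mem_ofPred_eq, exists_prop]
        exact ⟨c', ⟨hc', h⟩, hz⟩
    have hcl : IsClosed (⋃ c' ∈ {c' | c' < 15 ∧ c' ≠ c}, KK c') :=
      ((Set.finite_lt_nat 15).subset fun c' h => h.1).isClosed_biUnion fun c' _ => isClosed_KK c'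
    have hdisj : Disjoint (KK c) (⋃ c' ∈ {c' | c' < 15 ∧ c' ≠ c}, KK c') := by
      rw [Set.disjoint_iUnion₂_right]
      intro c' hc'
      exact disjoint_KK (Ne.symm hc'.2)
    have := isPreconnected_iff_subset_of_disjoint_closed.mp hpre (KK c) _ (isClosed_KK c) hcl hsub
      (by rw [hdisj.inter_eq, Set.inter_empty])
    rcases this with h | h
    · exact h
    · exfalso
      have hxs : x ∈ connectedComponentIn (support DD) x :=
        mem_connectedComponentIn (KK_sub_support hc hx)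
      exact Set.disjoint_left.mp hdisj hx (h hxs)
  · exact (isPreconnected_KK hc).subset_connectedComponentIn hx (KK_sub_support hc)

lemma isComponent_iff {C : Set ℂ} : IsComponent DD C ↔ ∃ c < 15, C = KK c := by
  constructor
  · rintro ⟨x, hx, rfl⟩
    rw [support_eq] at hx
    simp only [Set.mem_iUnion, Set.mem_ofPred_eq, exists_prop] at hx
    obtain ⟨c, hc, hx⟩ := hx
    exact ⟨c, hc, component_eq hc hx⟩
  · rintro ⟨c, hc, rfl⟩
    obtain ⟨k, hk, h1, h2⟩ := cmp_surj c hc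
    have hx : P k ∈ KK c := mem_KK.mpr ⟨k, ⟨hk, h1.trans h2.symm⟩, h1, mem_left k⟩
    exact ⟨P k, KK_sub_support hc hx, (component_eq hc hx).symm⟩

lemma P_mem_KK_self {k : ℕ} (hk : k < 48) : P k ∈ KK (cmp k) := by
  rcases endpoint k hk with h | ⟨h1, h2⟩
  · exact mem_KK.mpr ⟨k, h, rfl, mem_left k⟩
  · obtain ⟨m, rfl⟩ : ∃ m, k = m + 1 := ⟨k - 1, by omega⟩
    simp only [Nat.add_sub_cancel] at h2
    exact mem_KK.mpr ⟨m, ⟨by omega, h2⟩, h2, mem_right m⟩

lemma P_mem_KK {k c : ℕ} (hk : k < 48) : P k ∈ KK c ↔ cmp k = c := by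
  constructor
  · intro h
    by_contra hne
    exact Set.disjoint_left.mp (disjoint_KK hne) (P_mem_KK_self hk) h
  · rintro rfl; exact P_mem_KK_self hk

lemma KK_inj {c c' : ℕ} (hc : c < 15) (h : KK c = KK c') : c = c' := by
  obtain ⟨k, hk, h1, -⟩ := cmp_surj c hc
  have : P k ∈ KK c := (P_mem_KK (by omega)).mpr h1
  rw [h, P_mem_KK (by omega)] at this
  rw [← h1, this]

/-- every point of a component has another point in this component. -/
lemma other_point : ∀ i < 48, ∃ i' < 48, cmp i' = cmp i ∧ i' ≠ i := by decide +kernel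

lemma exists_nearest {i : ℕ} (hi : i < 48) : ∃ m < 48, cmp m = cmp i ∧ m ≠ i ∧
    ∀ i' < 48, cmp i' = cmp i → i' ≠ i → d2 i m ≤ d2 i i' := by
  obtain ⟨i0, h0, h1, h2⟩ := other_point i hi
  obtain ⟨m, hm, hmin⟩ := Finset.exists_min_image
    ((Finset.range 48).filter fun i' => cmp i' = cmp i ∧ i' ≠ i) (fun i' => d2 i i')
    ⟨i0, by simp [h0, h1, h2]⟩
  simp only [Finset.mem_filter, Finset.mem_range] at hm hmin
  exact ⟨m, hm.1, hm.2.1, hm.2.2, fun i' a b c => hmin i' ⟨a, b, c⟩⟩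

lemma sees_iff {c c' : ℕ} : Sees DD (KK c) (KK c') ↔ ∃ i < 48, cmp i = c ∧ ∃ j < 48, cmp j = c' ∧
    ∀ i' < 48, cmp i' = c → i' ≠ i → d2 i j < d2 i i' := by
  constructor
  · rintro ⟨p, hp, hpc, q, ⟨hq, a, ⟨⟨ha, hac, hap⟩, hmin⟩, hlt⟩, hqc⟩
    obtain ⟨i, hi, rfl⟩ := mem_special.mp hp
    obtain ⟨j, hj, rfl⟩ := mem_special.mp hq
    obtain ⟨m, hm, rfl⟩ := mem_special.mp ha
    refine ⟨i, hi, (P_mem_KK hi).mp hpc, j, hj, (P_mem_KK hj).mp hqc, fun i' hi' hc' hne => ?_⟩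
    have h1 := hmin (P i') (mem_special.mpr ⟨i', hi', rfl⟩) ((P_mem_KK hi').mpr hc')
      (fun e => hne (P_inj hi' hi e))
    rw [dist_le_iff] at h1
    rw [dist_lt_iff] at hlt
    exact lt_of_lt_of_le hlt h1
  · rintro ⟨i, hi, rfl, j, hj, rfl, h⟩
    obtain ⟨m, hm, hmc, hmi, hmin⟩ := exists_nearest hi
    refine ⟨P i, mem_special.mpr ⟨i, hi, rfl⟩, (P_mem_KK hi).mpr rfl, P j,
      ⟨mem_special.mpr ⟨j, hj, rfl⟩, P m, ⟨⟨mem_special.mpr ⟨m, hm, rfl⟩, (P_mem_KK hm).mpr hmc,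
        fun e => hmi (P_inj hm hi e)⟩, ?_⟩, ?_⟩, (P_mem_KK hj).mpr rfl⟩
    · intro a' ha' hac' hne
      obtain ⟨i', hi', rfl⟩ := mem_special.mp ha'
      rw [dist_le_iff]
      exact hmin i' hi' ((P_mem_KK hi').mp hac') (fun e => hne (by rw [e]))
    · rw [dist_lt_iff]
      exact h m hm hmc hmi

lemma seesB_iff {c c' : ℕ} : seesB c c' = true ↔ ∃ i < 48, cmp i = c ∧ ∃ j < 48, cmp j = c' ∧
    ∀ i' < 48, cmp i' = c → i' ≠ i → d2 i j < d2 i i' := by
  simp only [seesB, List.any_eq_true, List.all_eq_true, List.mem_range, Bool.and_eq_true,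
    Bool.or_eq_true, beq_iff_eq, bne_iff_ne, decide_eq_true_eq]
  constructor
  · rintro ⟨i, hi, hc, j, hj, hc', h⟩
    refine ⟨i, hi, hc, j, hj, hc', fun i' hi' e hne => ?_⟩
    rcases h i' hi' with (h | h) | h
    · exact absurd e h
    · exact absurd h hne
    · exact h
  · rintro ⟨i, hi, hc, j, hj, hc', h⟩
    refine ⟨i, hi, hc, j, hj, hc', fun i' hi' => ?_⟩
    by_cases e : cmp i' = c
    · by_cases hne : i' = i
      · exact Or.inl (Or.inr hne)
      · exact Or.inr (h i' hi' e hne)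
    · exact Or.inl (Or.inl e)

/-- The component number of a vertex of the subdivided `K_{3,3}`. -/
def idx : (Fin 3 ⊕ Fin 3) ⊕ (Fin 3 × Fin 3) → ℕ
  | Sum.inl (Sum.inl i) => i
  | Sum.inl (Sum.inr j) => 3 + j
  | Sum.inr (i, j) => 6 + 3 * i + j

lemma idx_lt : ∀ v, idx v < 15 := by decide

lemma idx_inj : ∀ v w, idx v = idx w → v = w := by decide

lemma idx_surj : ∀ c < 15, ∃ v, idx v = c := by decide

instance : DecidableRel subdividedK33.Adj := fun u v =>
  decidable_of_iff _ (SimpleGraph.fromRel_adj (fun u v : (Fin 3 ⊕ Fin 3) ⊕ (Fin 3 × Fin 3) =>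
    ∃ i j : Fin 3, v = Sum.inr (i, j) ∧ (u = Sum.inl (Sum.inl i) ∨ u = Sum.inl (Sum.inr j)))
    u v).symm

instance : PathConnectedSpace unitInterval :=
  isPathConnected_iff_pathConnectedSpace.mp
    ((convex_Icc (0 : ℝ) 1).isPathConnected ⟨0, by simp⟩)

lemma adj_iff : ∀ v w, subdividedK33.Adj v w ↔
    (v ≠ w ∧ (adjB (idx v) (idx w) || adjB (idx w) (idx v)) = true) := by
  decide +kernel

theorem conflict_subdividedK33 : IsConflictGraph subdividedK33 := by
  refine ⟨DD, isDrawing_DD, isPlane_DD, ⟨?_⟩⟩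
  let f : (Fin 3 ⊕ Fin 3) ⊕ (Fin 3 × Fin 3) → {C : Set ℂ // IsComponent DD C} :=
    fun v => ⟨KK (idx v), isComponent_iff.mpr ⟨idx v, idx_lt v, rfl⟩⟩
  have hf : Function.Bijective f := by
    constructor
    · intro v w h
      exact idx_inj v w (KK_inj (idx_lt v) (congrArg Subtype.val h))
    · rintro ⟨C, hC⟩
      obtain ⟨c, hc, rfl⟩ := isComponent_iff.mp hC
      obtain ⟨v, rfl⟩ := idx_surj c hc
      exact ⟨v, rfl⟩
  refine ⟨Equiv.ofBijective f hf, ?_⟩
  intro v w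
  rw [adj_iff]
  have hne : f v ≠ f w ↔ v ≠ w := hf.1.ne_iff
  change f v ≠ f w ∧ (Sees DD (KK (idx v)) (KK (idx w)) ∨ Sees DD (KK (idx w)) (KK (idx v))) ↔ _
  rw [hne]
  refine and_congr_right fun hvw => ?_
  have hidx : idx v ≠ idx w := fun e => hvw (idx_inj v w e)
  rw [← sees_check _ (idx_lt v) _ (idx_lt w) hidx, Bool.or_eq_true, seesB_iff, seesB_iff,
    sees_iff, sees_iff]

theorem not_string_subdividedK33 : ¬ IsStringGraph subdividedK33 := by
  rintro ⟨γ, hγ⟩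
  let A : Fin 3 → Set ℂ := fun i => Set.range (γ (Sum.inl (Sum.inl i)))
  let B : Fin 3 → Set ℂ := fun j => Set.range (γ (Sum.inl (Sum.inr j)))
  let M : Fin 3 → Fin 3 → Set ℂ := fun i j => Set.range (γ (Sum.inr (i, j)))
  let S : Fin 3 → Fin 3 → Set ℂ := fun i j => (A i ∪ M i j) ∪ B j
  have hpc : ∀ v, IsPathConnected (Set.range (γ v)) := fun v =>
    isPathConnected_range (γ v).continuous
  have hAM : ∀ i j, (A i ∩ M i j).Nonempty := fun i j =>
    (hγ _ _ (by simp)).mpr (by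
      have : ∀ i j : Fin 3, subdividedK33.Adj (Sum.inl (Sum.inl i)) (Sum.inr (i, j)) := by
        decide
      exact this i j)
  have hMB : ∀ i j, (M i j ∩ B j).Nonempty := fun i j =>
    (hγ _ _ (by simp)).mpr (by
      have : ∀ i j : Fin 3, subdividedK33.Adj (Sum.inr (i, j)) (Sum.inl (Sum.inr j)) := by
        decide
      exact this i j)
  have hS : ∀ i j, IsPathConnected (S i j) := fun i j =>
    ((hpc _).union (hpc _) (hAM i j)).union (hpc _)
      ((hMB i j).mono fun z hz => ⟨Or.inr hz.1, hz.2⟩)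
  have hdisj : ∀ i k j l, i ≠ k → j ≠ l → Disjoint (S i j) (S k l) := by
    have hd : ∀ u v, u ≠ v → ¬ subdividedK33.Adj u v →
        Disjoint (Set.range (γ u)) (Set.range (γ v)) := by
      intro u v huv hadj
      rw [Set.disjoint_iff_inter_eq_empty, ← Set.not_nonempty_iff_eq_empty]
      exact fun h => hadj ((hγ u v huv).mp h)
    have hall : ∀ i k j l : Fin 3, i ≠ k → j ≠ l →
        ∀ u ∈ [Sum.inl (Sum.inl i), Sum.inr (i, j), Sum.inl (Sum.inr j)],
        ∀ v ∈ [Sum.inl (Sum.inl k), Sum.inr (k, l), Sum.inl (Sum.inr l)],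
        u ≠ v ∧ ¬ subdividedK33.Adj u v := by decide +kernel
    intro i k j l hik hjl
    have H := hall i k j l hik hjl
    simp only [S, A, M, B, Set.disjoint_union_left, Set.disjoint_union_right]
    refine ⟨⟨⟨⟨?_, ?_⟩, ?_⟩, ⟨⟨?_, ?_⟩, ?_⟩⟩, ⟨⟨?_, ?_⟩, ?_⟩⟩ <;>
      exact hd _ _ (H _ (by simp) _ (by simp)).1 (H _ (by simp) _ (by simp)).2
  have hjoin : ∀ i j, JoinedIn (S i j) (γ (Sum.inl (Sum.inl i)) 0) (γ (Sum.inl (Sum.inr j)) 0) :=
    fun i j => (hS i j).joinedIn _ (Or.inl (Or.inl ⟨0, rfl⟩)) _ (Or.inr ⟨0, rfl⟩)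
  choose p hp using hjoin
  refine no_K33 (fun i => γ (Sum.inl (Sum.inl i)) 0) (fun j => γ (Sum.inl (Sum.inr j)) 0)
    (fun i j => p i j) (fun i j => (p i j).continuous) (fun i j => (p i j).source)
    (fun i j => (p i j).target) ?_
  intro i k j l hik hjl s t e
  exact Set.disjoint_left.mp (hdisj i k j l hik hjl) (hp i j s) (e ▸ hp k l t)

end Pool.Agent.V8H12.Conf
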